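import Pool.Agent.H43.PS.Targets

/-! Row DTM of the board psd_modules. -/

namespace H43.PS

open Matrix Finset

theorem DTM : T_DTM := by
  intro κ α _ _ _ _ P hP
  have hc : IsCompact (stdSimplex ℝ α) := isCompact_stdSimplex ℝ α
  have hne : (stdSimplex ℝ α).Nonempty := by
    classical
    obtain ⟨a⟩ := (inferInstance : Nonempty α)
    exact ⟨_, single_mem_stdSimplex ℝ a⟩
  have hcont : Continuous (fun w : α → ℝ => (∑ a, w a • P a).det) := by
    apply Continuous.matrix_det
    apply continuous_finset_sum
    intro a _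
    exact (continuous_apply a).smul continuous_const
  obtain ⟨w, hw, hmax⟩ := hc.exists_isMaxOn hne hcont.continuousOn
  refine ⟨w, hw.1, hw.2, fun w' h0 h1 => ?_⟩
  have hw' : w' ∈ stdSimplex ℝ α := ⟨h0, h1⟩
  exact hmax hw'

end H43.PS
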